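import Pool.Agent.H606.GU.Stm2

/-! TASK RED2 of project GU2 (helper606): reduction of the level (helper321; the proof is an
adaptation of helper401's proof of S_RED). -/

open MeasureTheory Filter Topology Finset
open Pool.Agent.H606.GU

namespace Pool.Agent.H321.GU.RED2

/-- the extended set: first `n` coordinates in `K`, the last one in `[B, B+L]` -/
def PP (n : ℕ) (K : Set (Fin n → ℝ)) (B L : ℝ) : Set (Fin (n + 1) → ℝ) :=
  {y | (fun l : Fin n => y l.castSucc) ∈ K ∧ y (Fin.last n) ∈ Set.Icc B (B + L)}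

lemma sn_castSucc {n : ℕ} (u : Fin n → ℝ) (v : ℝ) (l : Fin n) : sn u v l.castSucc = u l := by
  simp [sn]

lemma sn_last {n : ℕ} (u : Fin n → ℝ) (v : ℝ) : sn u v (Fin.last n) = v := by
  simp [sn]

lemma sn_init {n : ℕ} (y : Fin (n + 1) → ℝ) :
    sn (fun l : Fin n => y l.castSucc) (y (Fin.last n)) = y := by
  funext i
  refine Fin.lastCases ?_ (fun j => ?_) i
  · rw [sn_last]
  · rw [sn_castSucc]

lemma continuous_sn {n : ℕ} : Continuous (fun p : (Fin n → ℝ) × ℝ => sn p.1 p.2) := by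
  refine continuous_pi fun i => ?_
  refine Fin.lastCases ?_ (fun j => ?_) i
  · simp only [sn_last]; exact continuous_snd
  · simp only [sn_castSucc]; exact (continuous_apply j).comp continuous_fst

lemma PP_eq_image {n : ℕ} (K : Set (Fin n → ℝ)) (B L : ℝ) :
    PP n K B L = (fun p : (Fin n → ℝ) × ℝ => sn p.1 p.2) '' (K ×ˢ Set.Icc B (B + L)) := by
  ext y
  constructor
  · intro hy
    exact ⟨(fun l => y l.castSucc, y (Fin.last n)), ⟨hy.1, hy.2⟩, sn_init y⟩
  · rintro ⟨⟨u, v⟩, ⟨hu, hv⟩, rfl⟩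
    refine ⟨?_, ?_⟩
    · have : (fun l : Fin n => sn u v l.castSucc) = u := by funext l; rw [sn_castSucc]
      simpa [this] using hu
    · simpa [sn_last] using hv

lemma PP_compact {n : ℕ} {K : Set (Fin n → ℝ)} (hK : IsCompact K) (B L : ℝ) :
    IsCompact (PP n K B L) := by
  rw [PP_eq_image]
  exact (hK.prod isCompact_Icc).image continuous_sn

/-- Fubini -/
lemma int_PP (hRHO : S_RHO) (hFIS : S_FIS) {n : ℕ} {K : Set (Fin n → ℝ)} (hK : IsCompact K)
    (B L : ℝ) (hL : 0 ≤ L) :
    ∫ y in PP n K B L, rho y ≤ L * ∫ y in K, rho y := by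
  have hcont : ∀ m : ℕ, Continuous (rho : (Fin m → ℝ) → ℝ) := fun m => hRHO.1 (Fin m)
  set e := MeasurableEquiv.piFinSuccAbove (fun _ : Fin (n + 1) => ℝ) (Fin.last n) with he
  have hmp : MeasurePreserving e volume volume :=
    volume_preserving_piFinSuccAbove (fun _ : Fin (n + 1) => ℝ) (Fin.last n)
  have he1 : ∀ y : Fin (n + 1) → ℝ, (e y).1 = y (Fin.last n) := fun y => rfl
  have he2 : ∀ y : Fin (n + 1) → ℝ, (e y).2 = fun l : Fin n => y l.castSucc := by
    intro y
    funext l
    have : (e y).2 l = y ((Fin.last n).succAbove l) := rfl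
    rw [this, Fin.succAbove_last]
  have hpre : e ⁻¹' (Set.Icc B (B + L) ×ˢ K) = PP n K B L := by
    ext y
    simp only [Set.mem_preimage, Set.mem_prod, he1, he2, PP, Set.mem_ofPred_eq]
    tauto
  have h1 := hmp.setIntegral_preimage_emb e.measurableEmbedding
    (fun p : ℝ × (Fin n → ℝ) => rho (sn p.2 p.1)) (Set.Icc B (B + L) ×ˢ K)
  rw [hpre] at h1
  have h2 : ∀ y : Fin (n + 1) → ℝ, rho (sn (e y).2 (e y).1) = rho y := by
    intro y
    rw [he1, he2, sn_init]
  simp only [h2] at h1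
  rw [h1]
  have hcp : IsCompact (Set.Icc B (B + L) ×ˢ K) := isCompact_Icc.prod hK
  have hms : MeasurableSet (Set.Icc B (B + L) ×ˢ K) := hcp.measurableSet
  have hc1 : Continuous (fun p : ℝ × (Fin n → ℝ) => rho (sn p.2 p.1)) :=
    (hcont (n + 1)).comp (continuous_sn.comp (continuous_snd.prodMk continuous_fst))
  have hc2 : Continuous (fun p : ℝ × (Fin n → ℝ) => (1 : ℝ) * rho p.2) :=
    continuous_const.mul ((hcont n).comp continuous_snd)
  calc ∫ p in Set.Icc B (B + L) ×ˢ K, rho (sn p.2 p.1)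
      ≤ ∫ p in Set.Icc B (B + L) ×ˢ K, (1 : ℝ) * rho p.2 := by
        refine setIntegral_mono (hc1.continuousOn.integrableOn_compact hcp)
          (hc2.continuousOn.integrableOn_compact hcp) fun p => ?_
        rw [one_mul]
        exact hFIS.2.2.2 n p.2 p.1
    _ = (∫ v in Set.Icc B (B + L), (1 : ℝ)) * ∫ y in K, rho y := by
        have := setIntegral_prod_mul (μ := (volume : Measure ℝ))
          (ν := (volume : Measure (Fin n → ℝ))) (fun _ : ℝ => (1 : ℝ)) (fun y => rho y)
          (Set.Icc B (B + L)) K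
        rw [← this]
        rfl
    _ = L * ∫ y in K, rho y := by
        congr 1
        rw [setIntegral_const, smul_eq_mul, mul_one, measureReal_def, Real.volume_Icc]
        rw [ENNReal.toReal_ofReal (by linarith)]
        ring

section counting

variable {N : ℕ} (x : Fin N → ℝ)

/-- `cnt K t * #(points in [B, B+L)) ≤ cnt P t` -/
lemma cnt_mul_le {n : ℕ} (K : Set (Fin n → ℝ)) {B L : ℝ} (hL : 0 ≤ L)
    (hKB : ∀ y ∈ K, ∀ l, -B ≤ y l ∧ y l < B) (t : ℝ) :
    cnt x K t * tc x L 0 (t + B) ≤ cnt x (PP n K B L) t := by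
  unfold cnt tc
  rw [← Set.ncard_prod]
  refine Set.ncard_le_ncard_of_injOn (fun p => (Fin.snoc (α := fun _ => Fin N) p.1 p.2 :
    Fin (n + 1) → Fin N)) ?_ ?_ (Set.toFinite _)
  · rintro ⟨s, j⟩ ⟨⟨hs, hsK⟩, hj⟩
    simp only [Nat.cast_zero, zero_mul, zero_add, one_mul, Set.mem_ofPred_eq] at hj
    refine ⟨?_, ?_, ?_⟩
    · rw [Fin.snoc_injective_iff]
      refine ⟨hs, ?_⟩
      rintro ⟨l, hl⟩
      have h1 := (hKB _ hsK l).2
      simp only at h1 hl
      rw [hl] at h1
      linarith [hj.1]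
    · simpa using hsK
    · simp only [Fin.snoc_last, Set.mem_Icc]
      constructor <;> linarith [hj.1, hj.2]
  · rintro ⟨s, j⟩ _ ⟨s', j'⟩ _ h
    have h1 : s = s' := by
      funext l
      have := congrFun h l.castSucc
      simpa using this
    have h2 : j = j' := by
      have := congrFun h (Fin.last n)
      simpa using this
    rw [h1, h2]

lemma cnt_le_pow (hTC : S_TC) {n : ℕ} (K : Set (Fin n → ℝ)) {B : ℝ} (hB : 0 < B)
    (hKB : ∀ y ∈ K, ∀ l, -B ≤ y l ∧ y l < B) (t : ℝ) :
    cnt x K t ≤ tc x (2 * B) 0 (t - B) ^ n := by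
  have h1 := (hTC N x (2 * B) (by linarith)).1 n 0 (t - B)
  have h2 : cnt x K t ≤ cnt x (tile n (2 * B) 0) (t - B) := by
    unfold cnt
    refine Set.ncard_le_ncard ?_ (Set.toFinite _)
    rintro s ⟨hs, hsK⟩
    refine ⟨hs, fun l => ?_⟩
    have := hKB _ hsK l
    simp only [Nat.cast_zero, zero_mul, zero_add, one_mul] at this ⊢
    constructor <;> linarith [this.1, this.2]
  rw [← h1] at h2
  exact h2.trans (Nat.descFactorial_le_pow _ _)

lemma cnt_eq_zero {n : ℕ} (hn : 1 ≤ n) (K : Set (Fin n → ℝ)) {B R : ℝ}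
    (hKB : ∀ y ∈ K, ∀ l, -B ≤ y l ∧ y l < B) (hx : ∀ j, 0 ≤ x j ∧ x j ≤ R) {t : ℝ}
    (ht : t ∉ Set.Icc (-B) (R + B)) : cnt x K t = 0 := by
  unfold cnt
  rw [Set.ncard_eq_zero]
  rw [Set.eq_empty_iff_forall_notMem]
  rintro s ⟨_, hsK⟩
  apply ht
  have h1 := hKB _ hsK ⟨0, hn⟩
  have h2 := hx (s ⟨0, hn⟩)
  constructor <;> linarith [h1.1, h1.2, h2.1, h2.2]

end counting

/-- splitting by the size of the number of points -/
lemma splitpow {f u A : ℝ} {n : ℕ} (hA : 0 < A) (hu : 0 ≤ u) (hf : f ≤ u ^ n) :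
    f ≤ A ^ n + u ^ (n + 1) / A := by
  rcases le_or_gt u A with h | h
  · have h1 : u ^ n ≤ A ^ n := pow_le_pow_left₀ hu h n
    have h2 : 0 ≤ u ^ (n + 1) / A := by positivity
    linarith
  · have h1 : u ^ n ≤ u ^ (n + 1) / A := by
      rw [le_div_iff₀ hA, pow_succ]
      exact mul_le_mul_of_nonneg_left h.le (pow_nonneg hu n)
    have h2 : 0 < A ^ n := pow_pos hA n
    linarith

/-- The pointwise inequality. -/
lemma pointwise {f g h q A L η : ℝ} (hf : 0 ≤ f) (hA : 0 < A) (hL : 0 < L) (hη : 0 < η)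
    (hη1 : η ≤ 1) (hq0 : 0 ≤ q) (hq : f ≤ A + q) (hh : f * g ≤ h) (hg : 0 ≤ g) :
    (1 - η) * L * f ≤ h + (1 - η) * L * (A / (η * L) * |g - L| + q) := by
  have h1 : 0 ≤ (1 - η) * L := mul_nonneg (by linarith) hL.le
  have h2 : 0 ≤ A / (η * L) * |g - L| := by positivity
  rcases le_or_gt ((1 - η) * L) g with hc | hc
  · have h4 : (1 - η) * L * f ≤ g * f := mul_le_mul_of_nonneg_right hc hf
    have h5 : 0 ≤ (1 - η) * L * (A / (η * L) * |g - L| + q) := by positivity
    nlinarith
  · have h4 : η * L ≤ |g - L| := by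
      rw [abs_sub_comm]
      refine le_trans ?_ (le_abs_self _)
      nlinarith
    have h5 : A ≤ A / (η * L) * |g - L| := by
      calc A = A / (η * L) * (η * L) := by field_simp
        _ ≤ _ := mul_le_mul_of_nonneg_left h4 (by positivity)
    have h7 : (1 - η) * L * f ≤ (1 - η) * L * (A / (η * L) * |g - L| + q) :=
      mul_le_mul_of_nonneg_left (by linarith) h1
    have h8 : 0 ≤ f * g := mul_nonneg hf hg
    linarith

/-- the integrated inequality for one configuration -/
lemma integrated (hAV : S_AV) (hTC : S_TC) {N : ℕ} (x : Fin N → ℝ) {R : ℝ} (hR : 0 < R)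
    (hx : ∀ j, 0 ≤ x j ∧ x j ≤ R) {n : ℕ} (hn : 1 ≤ n) {K : Set (Fin n → ℝ)} (hK : IsCompact K)
    {B : ℝ} (hB : 0 < B) (hKB : ∀ y ∈ K, ∀ l, -B ≤ y l ∧ y l < B) {L : ℝ} (hL : 0 < L)
    {A η : ℝ} (hA : 0 < A) (hη : 0 < η) (hη1 : η ≤ 1) :
    (1 - η) * L * Av x R K ≤ Av x R (PP n K B L) + (1 - η) * L * (A ^ n / (η * L) *
      ((∫ t in Set.Icc (-L) R, |(tc x L 0 t : ℝ) - L|) / R + 2 * B * L / R) +
      (∫ t : ℝ, (tc x (2 * B) 0 t : ℝ) ^ (n + 1)) / R / A) := by
  have : Nonempty (Fin n) := ⟨⟨0, hn⟩⟩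
  have hPc : IsCompact (PP n K B L) := PP_compact hK B L
  -- the functions
  set f : ℝ → ℝ := fun t => (cnt x K t : ℝ) with hf
  set h : ℝ → ℝ := fun t => (cnt x (PP n K B L) t : ℝ) with hh
  set G1 : ℝ → ℝ := (Set.Icc (-L) R).indicator (fun u => |(tc x L 0 u : ℝ) - L|) with hG1
  set G2 : ℝ → ℝ := (Set.Icc R (R + 2 * B)).indicator (fun _ => L) with hG2
  set q : ℝ → ℝ := fun u => (tc x (2 * B) 0 u : ℝ) ^ (n + 1) with hq
  have tcL := hTC N x L hL
  have tcB := hTC N x (2 * B) (by linarith)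
  -- integrability
  have hfi : Integrable f := (hAV (Fin n) N x R hR).1 K hK.measurableSet hK.isBounded
  have hhi : Integrable h := (hAV (Fin (n + 1)) N x R hR).1 _ hPc.measurableSet hPc.isBounded
  have hG1i : Integrable G1 := by
    rw [hG1, integrable_indicator_iff measurableSet_Icc]
    refine Measure.integrableOn_of_bounded (M := (N : ℝ) + L) (by simp) ?_ ?_
    · exact ((tcL.2.2.2.2.1 0).sub_const L).abs.aestronglyMeasurable
    · refine ae_of_all _ fun t => ?_
      have h1 : (tc x L 0 t : ℝ) ≤ N := by exact_mod_cast tcL.2.2.2.2.2.2.1 0 t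
      have h2 : (0 : ℝ) ≤ tc x L 0 t := Nat.cast_nonneg _
      rw [Real.norm_eq_abs, abs_abs, abs_le]
      constructor <;> linarith
  have hG2i : Integrable G2 := by
    rw [hG2, integrable_indicator_iff measurableSet_Icc]
    exact integrableOn_const (by rw [Real.volume_Icc]; exact ENNReal.ofReal_ne_top)
  have hqi : Integrable q := by
    have hsupp : Function.support q ⊆ Set.Icc (-(((1 : ℕ) : ℝ) * (2 * B))) R := by
      intro t ht
      by_contra hc
      apply ht
      have := tcB.2.2.2.2.2.1 1 R hx 0 (by norm_num) t hc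
      simp only [hq, this, Nat.cast_zero]
      exact zero_pow (by omega)
    rw [← integrableOn_iff_integrable_of_support_subset hsupp]
    refine Measure.integrableOn_of_bounded (M := (N : ℝ) ^ (n + 1)) (by simp) ?_ ?_
    · exact ((tcB.2.2.2.2.1 0).pow_const _).aestronglyMeasurable
    · refine ae_of_all _ fun t => ?_
      have h1 : (tc x (2 * B) 0 t : ℝ) ≤ N := by exact_mod_cast tcB.2.2.2.2.2.2.1 0 t
      have h2 : (0 : ℝ) ≤ tc x (2 * B) 0 t := Nat.cast_nonneg _
      rw [Real.norm_eq_abs, abs_of_nonneg (by positivity)]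
      exact pow_le_pow_left₀ h2 h1 _
  -- the pointwise inequality
  have hpt : ∀ t : ℝ, (1 - η) * L * f t ≤ h t + (1 - η) * L * (A ^ n / (η * L) *
      (G1 (t + B) + G2 (t + B)) + q (t - B) / A) := by
    intro t
    have hg1 : ∀ u, 0 ≤ G1 u := fun u => Set.indicator_nonneg (fun _ _ => abs_nonneg _) u
    have hg2 : ∀ u, 0 ≤ G2 u := fun u => Set.indicator_nonneg (fun _ _ => hL.le) u
    have hq0 : 0 ≤ q (t - B) := by simp only [hq]; positivity
    have h1η : 0 ≤ (1 - η) * L := mul_nonneg (by linarith) hL.le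
    by_cases ht : t ∈ Set.Icc (-B) (R + B)
    · have h1 : f t ≤ A ^ n + q (t - B) / A := by
        have := cnt_le_pow x hTC K hB hKB t
        have h2 : (cnt x K t : ℝ) ≤ (tc x (2 * B) 0 (t - B) : ℝ) ^ n := by exact_mod_cast this
        exact splitpow hA (Nat.cast_nonneg _) h2
      have h2 : f t * (tc x L 0 (t + B) : ℝ) ≤ h t := by
        simp only [hf, hh]
        exact_mod_cast cnt_mul_le x K hL.le hKB t
      have h3 := pointwise (f := f t) (g := (tc x L 0 (t + B) : ℝ)) (h := h t) (q := q (t - B) / A)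
        (Nat.cast_nonneg _) (pow_pos hA n) hL hη hη1 (by positivity) h1 h2 (Nat.cast_nonneg _)
      refine h3.trans ?_
      have h4 : |(tc x L 0 (t + B) : ℝ) - L| ≤ G1 (t + B) + G2 (t + B) := by
        rcases le_or_gt (t + B) R with hc | hc
        · have : G1 (t + B) = |(tc x L 0 (t + B) : ℝ) - L| := by
            rw [hG1]
            exact Set.indicator_of_mem (show t + B ∈ Set.Icc (-L) R from
              ⟨by linarith [ht.1], hc⟩) _
          rw [this]
          linarith [hg2 (t + B)]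
        · have h5 : G2 (t + B) = L := by
            rw [hG2]
            exact Set.indicator_of_mem (show t + B ∈ Set.Icc R (R + 2 * B) from
              ⟨hc.le, by linarith [ht.2]⟩) _
          have h6 : tc x L 0 (t + B) = 0 := by
            refine tcL.2.2.2.2.2.1 1 R hx 0 (by norm_num) _ ?_
            intro hmem
            linarith [hmem.2]
          rw [h5, h6, Nat.cast_zero, zero_sub, abs_neg, abs_of_pos hL]
          linarith [hg1 (t + B)]
      have h5 : 0 ≤ A ^ n / (η * L) := by positivity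
      have h6 := mul_le_mul_of_nonneg_left h4 h5
      have h7 := mul_le_mul_of_nonneg_left (add_le_add_left h6 (q (t - B) / A)) h1η
      linarith
    · have h1 : f t = 0 := by
        simp only [hf, cnt_eq_zero x hn K hKB hx ht, Nat.cast_zero]
      rw [h1, mul_zero]
      have h2 : 0 ≤ h t := Nat.cast_nonneg _
      have h3 : 0 ≤ G1 (t + B) + G2 (t + B) := add_nonneg (hg1 _) (hg2 _)
      positivity
  -- integrate
  have hi1 : Integrable (fun t => (1 - η) * L * f t) := hfi.const_mul _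
  have hG1s : Integrable (fun t => G1 (t + B)) := hG1i.comp_add_right B
  have hG2s : Integrable (fun t => G2 (t + B)) := hG2i.comp_add_right B
  have hqs : Integrable (fun t => q (t - B)) := hqi.comp_sub_right B
  have hi2 : Integrable (fun t => A ^ n / (η * L) * (G1 (t + B) + G2 (t + B)) + q (t - B) / A) :=
    ((hG1s.add hG2s).const_mul _).add (hqs.div_const A)
  have hi3 : Integrable (fun t => h t + (1 - η) * L * (A ^ n / (η * L) *
      (G1 (t + B) + G2 (t + B)) + q (t - B) / A)) := hhi.add (hi2.const_mul _)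
  have hint := integral_mono hi1 hi3 hpt
  have e1 : ∫ t, (1 - η) * L * f t = (1 - η) * L * ∫ t, f t := integral_const_mul _ _
  have e2 : ∫ t, (h t + (1 - η) * L * (A ^ n / (η * L) *
      (G1 (t + B) + G2 (t + B)) + q (t - B) / A)) = (∫ t, h t) + (1 - η) * L *
      (A ^ n / (η * L) * ((∫ t in Set.Icc (-L) R, |(tc x L 0 t : ℝ) - L|) + 2 * B * L) +
        (∫ t, q t) / A) := by
    have e8 : ∫ t, (A ^ n / (η * L) * (G1 (t + B) + G2 (t + B)) + q (t - B) / A) =
        (∫ t, A ^ n / (η * L) * (G1 (t + B) + G2 (t + B))) + ∫ t, q (t - B) / A :=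
      integral_add ((hG1s.add hG2s).const_mul _) (hqs.div_const A)
    rw [integral_add hhi (hi2.const_mul _), integral_const_mul, e8]
    congr 3
    · rw [integral_const_mul]
      congr 1
      have e3 : ∫ t, (G1 (t + B) + G2 (t + B)) = (∫ t, G1 (t + B)) + ∫ t, G2 (t + B) :=
        integral_add hG1s hG2s
      have e4 : ∫ t, G1 (t + B) = ∫ t, G1 t := integral_add_right_eq_self G1 B
      have e5 : ∫ t, G2 (t + B) = ∫ t, G2 t := integral_add_right_eq_self G2 B
      have e6 : ∫ t, G1 t = ∫ t in Set.Icc (-L) R, |(tc x L 0 t : ℝ) - L| := by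
        rw [hG1, integral_indicator measurableSet_Icc]
      have e7 : ∫ t, G2 t = 2 * B * L := by
        rw [hG2, integral_indicator measurableSet_Icc, setIntegral_const, smul_eq_mul,
          measureReal_def, Real.volume_Icc, ENNReal.toReal_ofReal (by linarith)]
        ring
      rw [e3, e4, e5, e6, e7]
    · rw [integral_div]
      congr 1
      exact integral_sub_right_eq_self q B
  rw [e1, e2] at hint
  unfold Av
  have hfin := div_le_div_of_nonneg_right hint hR.le
  calc (1 - η) * L * ((∫ t, (cnt x K t : ℝ)) / R) = (1 - η) * L * (∫ t, f t) / R := by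
        simp only [hf]; ring
    _ ≤ _ := hfin
    _ = _ := by
        simp only [hh, hq]
        ring

theorem t_RED2 (hAV : S_AV) (hTC : S_TC) (hINT : S_INT) (hUPC : S_UPC) (hSETS : S_SETS)
    (hMOM : S_MOM) (hRHO : S_RHO) (hFIS : S_FIS) : S_RED2 := by
  intro C n c hn hc hCon hUp K hK ε hε
  -- the bound of K
  obtain ⟨B, hB, hKB⟩ : ∃ B : ℝ, 0 < B ∧ ∀ y ∈ K, ∀ l, -B ≤ y l ∧ y l < B := by
    obtain ⟨B0, hB0⟩ := hK.isBounded.exists_norm_le
    refine ⟨max B0 0 + 1, by positivity, fun y hy l => ?_⟩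
    have h1 := (norm_le_pi_norm y l).trans (hB0 y hy)
    rw [Real.norm_eq_abs, abs_le] at h1
    have h2 := le_max_left B0 0
    constructor <;> linarith [h1.1, h1.2]
  set m : ℝ := ∫ y in K, rho y with hm
  have hm0 : 0 ≤ m := by
    refine setIntegral_nonneg hK.measurableSet fun y _ => ?_
    exact (hFIS.1 (Fin n) y).2.1
  obtain ⟨D0, hD0, hmom⟩ := hMOM C (n + 1) c (by omega) hc hUp (n + 1) (by omega) le_rfl (2 * B)
    (by linarith)
  -- the parameters
  set η : ℝ := min (1 / 2) (ε / (10 * (c * m + 1))) with hη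
  have hcm : 0 ≤ c * m := mul_nonneg hc hm0
  have hη0 : 0 < η := lt_min (by norm_num) (by positivity)
  have hη2 : η ≤ 1 / 2 := min_le_left _ _
  have hη3 : 2 * (c * m) * η ≤ ε / 5 := by
    have h1 : η ≤ ε / (10 * (c * m + 1)) := min_le_right _ _
    have h2 : η * (10 * (c * m + 1)) ≤ ε := by rwa [le_div_iff₀ (by positivity)] at h1
    nlinarith
  set A : ℝ := 5 * D0 / ε with hAdef
  have hA : 0 < A := by positivity
  have hDA : D0 / A = ε / 5 := by rw [hAdef]; field_simp
  set η' : ℝ := η * ε / (5 * A ^ n) with hη'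
  have hη'0 : 0 < η' := by positivity
  obtain ⟨L0, hL0, hL⟩ := hCon η' hη'0
  set L : ℝ := max L0 1 with hLdef
  have hL1 : 1 ≤ L := le_max_right _ _
  have hLp : 0 < L := by linarith
  have hP := hUp (PP n K B L) (PP_compact hK B L) (ε / 10) (by positivity)
  have hRbig : ∀ᶠ T in atTop, max 1 (10 * A ^ n * B / (η * ε)) ≤ C.R T :=
    C.hR.eventually_ge_atTop _
  filter_upwards [hP, hL L (le_max_left _ _), hmom, hRbig] with T h1 h2 h3 h4
  have hR1 : 1 ≤ C.R T := (le_max_left _ _).trans h4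
  have hR0 : 0 < C.R T := by linarith
  have hR2 : 10 * A ^ n * B / (η * ε) ≤ C.R T := (le_max_right _ _).trans h4
  have hmain := integrated hAV hTC (C.x T) hR0 (fun j => C.hx T j) hn hK hB hKB hLp hA hη0
    (by linarith)
  have hPP := int_PP hRHO hFIS hK B L hLp.le
  -- assemble
  have h5 : Av (C.x T) (C.R T) (PP n K B L) ≤ c * (L * m) + ε / 10 :=
    h1.trans (by linarith [mul_le_mul_of_nonneg_left hPP hc])
  have h6 : A ^ n / (η * L) * ((∫ t in Set.Icc (-L) (C.R T), |(tc (C.x T) L 0 t : ℝ) - L|) / C.R T +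
      2 * B * L / C.R T) ≤ 2 * (ε / 5) := by
    have h7 : (∫ t in Set.Icc (-L) (C.R T), |(tc (C.x T) L 0 t : ℝ) - L|) / C.R T +
      2 * B * L / C.R T ≤ η' * L + η' * L := by
      refine add_le_add h2 ?_
      rw [div_le_iff₀ hR0]
      have h8 : 10 * A ^ n * B ≤ C.R T * (η * ε) := by
        rwa [div_le_iff₀ (by positivity)] at hR2
      have h9 : 2 * B ≤ η' * C.R T := by
        rw [hη', div_mul_eq_mul_div, le_div_iff₀ (by positivity)]
        nlinarith
      nlinarith
    calc _ ≤ A ^ n / (η * L) * (η' * L + η' * L) := mul_le_mul_of_nonneg_left h7 (by positivity)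
      _ = 2 * (ε / 5) := by
        rw [hη']
        field_simp
        ring
  have h7 : (∫ t : ℝ, (tc (C.x T) (2 * B) 0 t : ℝ) ^ (n + 1)) / C.R T / A ≤ ε / 5 := by
    rw [← hDA]
    exact div_le_div_of_nonneg_right h3 hA.le
  have h8 : 0 < (1 - η) * L := mul_pos (by linarith) hLp
  have h9 : (1 - η) * L * Av (C.x T) (C.R T) K ≤ c * (L * m) + ε / 10 +
      (1 - η) * L * (2 * (ε / 5) + ε / 5) := by
    refine hmain.trans (add_le_add h5 ?_)
    exact mul_le_mul_of_nonneg_left (add_le_add h6 h7) h8.le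
  have h10 : c * (L * m) + ε / 10 + (1 - η) * L * (2 * (ε / 5) + ε / 5) ≤
      (1 - η) * L * (c * m + ε) := by
    have h11 : c * m * η ≤ ε / 10 := by linarith
    have h12 : ε / 10 ≤ ε / 10 * L := by nlinarith
    have h13 : ε / 2 * L ≤ (1 - η) * L * ε := by nlinarith
    nlinarith
  have h14 := h9.trans h10
  exact le_of_mul_le_mul_left h14 h8

end Pool.Agent.H321.GU.RED2
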